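import Pool.Agent.MWGR.StmtsC

/-!
MWGR, row CRD: `Dm n d` changes a label by `d`.
-/

namespace Pool.Agent.MWGR.H23

open Pool.Agent.Helper14_MV Pool.Agent.Helper2_MV

theorem repf (f : ℕ → List ℕ) (c v : ℕ) (h : f c = [v]) :
    ∀ k, (List.replicate k c).flatMap f = List.replicate k v
  | 0 => rfl
  | k + 1 => by
    rw [List.replicate_succ, List.flatMap_cons, repf f c v h k, h]
    rfl

theorem ok_perm {H pr suf l l' : List ℕ} (hp : l.Perm l') (h : Ok1 H pr suf l) :
    Ok1 H pr suf l' where
  nd := h.nd
  hv x hx := by
    rw [← hp.count_eq]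
    exact h.hv x hx
  lt a ha hH := by
    rw [← hp.count_eq]
    exact h.lt a (hp.mem_iff.2 ha) hH

/-- **CRD**. -/
theorem crd (crm : CrmStmt) (exl : ExlStmt) : CrdStmt := by
  intro n η hB d hD H pr suf x a haH s s' hss
  obtain ⟨c1, -, c3⟩ := crm n η hB H pr suf x a
  refine c3 s (s' + d) s' (c1 s (s' + d) hss) ?_
  intro A D hOk
  have hn := hB.pos
  obtain ⟨t, ht⟩ : ∃ t, t = (n - 1) * (s' + d) := ⟨_, rfl⟩
  rw [← ht] at hOk ⊢
  have hmema : a ∈ A ++ (List.replicate (n + (s' + d)) x ++
      a :: (List.replicate (n + t) x ++ D)) :=
    List.mem_append_right _ (List.mem_append_right _ List.mem_cons_self)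
  obtain ⟨-, -, hsuf⟩ := hOk.lt a hmema haH
  obtain ⟨s1, s2, hs⟩ := List.append_of_mem hsuf
  have hxm : x ∈ A ++ (List.replicate (n + (s' + d)) x ++
      a :: (List.replicate (n + t) x ++ D)) := by
    apply List.mem_append_right
    apply List.mem_append_left
    rw [List.mem_replicate]
    exact ⟨by omega, rfl⟩
  have hxH : x ∈ H := by
    by_contra hxH
    have h1 := (hOk.lt x hxm hxH).1
    rw [List.count_append, List.count_append, List.count_cons, List.count_append,
      List.count_replicate_self, List.count_replicate_self] at h1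
    omega
  -- the middle word
  have hperm : (A ++ (List.replicate (n + (s' + d)) x ++
      a :: (List.replicate (n + t) x ++ D))).Perm (A ++ (List.replicate (n + s') x ++
      a :: (List.replicate (n + d + t) x ++ D))) := by
    rw [List.perm_iff_count]
    intro b
    simp only [List.count_append, List.count_cons, List.count_replicate]
    by_cases hb : x = b
    · subst hb
      simp only [beq_self_eq_true, if_true]
      omega
    · have : (x == b) = false := by simpa using hb
      simp only [this]
      simp
  have hOk2 := ok_perm hperm hOk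
  have h1 : RR η (Wd pr suf (A ++ (List.replicate (n + (s' + d)) x ++
      a :: (List.replicate (n + t) x ++ D)))) (Wd pr suf (A ++ (List.replicate (n + s') x ++
      a :: (List.replicate (n + d + t) x ++ D)))) := by
    obtain ⟨f, f0, f1, f2⟩ : ∃ f : ℕ → List ℕ, f 0 = [x] ∧ f 1 = [a] ∧
        f 2 = List.replicate t x ++ (D ++ s1) :=
      ⟨fun c => if c = 0 then [x] else if c = 1 then [a] else List.replicate t x ++ (D ++ s1),
        rfl, rfl, rfl⟩
    have fl : ∀ i j : ℕ, (X i ++ 1 :: (X j ++ [2, 1])).flatMap f =
        List.replicate i x ++ ([a] ++ (List.replicate j x ++ (List.replicate t x ++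
          (D ++ (s1 ++ [a]))))) := by
      intro i j
      rw [List.flatMap_append, List.flatMap_cons, List.flatMap_append, List.flatMap_cons,
        List.flatMap_cons, List.flatMap_nil, repf f 0 x f0, repf f 0 x f0, f1, f2]
      simp only [List.append_assoc, List.append_nil]
    have e := (RR.refl (β := η) (pr ++ (A ++ List.replicate s' x))).append
      ((RR.sub f hD).append (RR.refl (β := η) s2))
    rw [fl, fl] at e
    have eL : Wd pr suf (A ++ (List.replicate (n + (s' + d)) x ++
        a :: (List.replicate (n + t) x ++ D))) = (pr ++ (A ++ List.replicate s' x)) ++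
        ((List.replicate (n + d) x ++ ([a] ++ (List.replicate n x ++
          (List.replicate t x ++ (D ++ (s1 ++ [a])))))) ++ s2) := by
      unfold Wd
      rw [hs, show n + (s' + d) = s' + (n + d) by omega, List.replicate_add (n := t),
        List.replicate_add (m := s')]
      simp only [List.append_assoc, List.cons_append, List.nil_append]
    have eR : Wd pr suf (A ++ (List.replicate (n + s') x ++
        a :: (List.replicate (n + d + t) x ++ D))) = (pr ++ (A ++ List.replicate s' x)) ++
        ((List.replicate n x ++ ([a] ++ (List.replicate (n + d) x ++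
          (List.replicate t x ++ (D ++ (s1 ++ [a])))))) ++ s2) := by
      unfold Wd
      rw [hs, show n + s' = s' + n by omega, List.replicate_add (n := t),
        List.replicate_add (m := s')]
      simp only [List.append_assoc, List.cons_append, List.nil_append]
    rw [eL, eR]
    exact e
  -- change the exponent behind `a`
  obtain ⟨u, hu⟩ : ∃ u, n + (n - 1) * s' = u + 1 := ⟨n + (n - 1) * s' - 1, by omega⟩
  have hu2 : n + d + t = (u + n * d) + 1 := by
    obtain ⟨k, rfl⟩ : ∃ k, n = k + 1 := ⟨n - 1, by omega⟩
    rw [ht]
    simp only [Nat.add_sub_cancel] at hu ⊢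
    have e1 : k * (s' + d) = k * s' + k * d := by ring
    have e2 : (k + 1) * d = k * d + d := by ring
    rw [e1, e2]
    omega
  have rep : ∀ v : ℕ, A ++ (List.replicate (n + s') x ++ a :: (List.replicate (v + 1) x ++ D)) =
      (A ++ (List.replicate (n + s') x ++ [a])) ++ (List.replicate v x ++ x :: D) := by
    intro v
    rw [List.replicate_add (m := v)]
    simp only [List.append_assoc, List.cons_append, List.nil_append, List.replicate_one]
  rw [hu2] at h1 hOk2
  rw [hu]
  rw [rep] at h1 hOk2 ⊢
  have h2 := (exl n η hB H pr suf (A ++ (List.replicate (n + s') x ++ [a])) (x :: D) x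
    (u + n * d) u hOk2 hxH (by
      apply List.mem_append_right
      apply List.mem_append_left
      rw [List.mem_replicate]
      exact ⟨by omega, rfl⟩) List.mem_cons_self (by
      unfold Nat.ModEq
      rw [Nat.add_mul_mod_self_left])).2
  exact η.trans h1 h2

end Pool.Agent.MWGR.H23
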