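import Pool.Agent.MWGR.StmtsD

/-!
MWGR, row NTS: common later block.
-/

namespace Pool.Agent.MWGR.H23

open Pool.Agent.Helper14_MV Pool.Agent.Helper2_MV

theorem perm_gap (gap : MWGP.GapStmt) {n : ℕ} {θ : FIC} (hB : BG n (RR θ)) {L L' : List ℕ}
    (h : L.Perm L') : ∀ p : List ℕ, (∀ c ∈ L, c ∈ p) → RR θ (p ++ L) (p ++ L') := by
  induction h with
  | nil => intro p _; exact RR.refl _
  | cons x h ih =>
    intro p hp
    have h1 := ih (p ++ [x]) (fun c hc => List.mem_append_left _ (hp c (List.mem_cons_of_mem _ hc)))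
    simp only [List.append_assoc, List.singleton_append] at h1
    exact h1
  | swap x y l =>
    intro p hp
    exact (gap n θ hB.ga hB.rn p l y x (hp y List.mem_cons_self)).2
      (hp x (List.mem_cons_of_mem _ List.mem_cons_self))
  | trans h1 h2 ih1 ih2 =>
    intro p hp
    exact θ.trans (ih1 p hp) (ih2 p (fun c hc => hp c (h1.mem_iff.2 hc)))

theorem two_perm {L : List ℕ} (h : ∀ c ∈ L, c = 1 ∨ c = 2) :
    L.Perm (List.replicate (L.count 1) 1 ++ List.replicate (L.count 2) 2) := by
  rw [List.perm_iff_count]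
  intro c
  rw [List.count_append, List.count_replicate, List.count_replicate]
  by_cases h1 : c = 1
  · subst h1
    simp
  · by_cases h2 : c = 2
    · subst h2
      simp
    · rw [List.count_eq_zero.2 (fun hc => (h c hc).elim h1 h2)]
      have e1 : ((1 : ℕ) == c) = false := by simpa using fun e : 1 = c => h1 e.symm
      have e2 : ((2 : ℕ) == c) = false := by simpa using fun e : 2 = c => h2 e.symm
      simp [e1, e2]

/-- **NTS**. -/
theorem nts (gap : MWGP.GapStmt) (nta : NtaStmt) (ntc : NtcStmt) : NtsStmt := by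
  intro n θ hB L L' i j l i' j' l' h1 h2 h1' h2' hL hL' hR
  -- permutations behind the separator
  have pL : ∀ T T' : List ℕ, T.Perm T' → (∀ c ∈ T, c = 1 ∨ c = 2) →
      RR θ (X i ++ 1 :: (X j ++ 2 :: (X l ++ 3 :: T))) (X i ++ 1 :: (X j ++ 2 :: (X l ++ 3 :: T'))) := by
    intro T T' hp hT
    have e : ∀ T : List ℕ, X i ++ 1 :: (X j ++ 2 :: (X l ++ 3 :: T)) =
        (X i ++ 1 :: (X j ++ 2 :: (X l ++ [3]))) ++ T := by
      intro T
      simp only [List.append_assoc, List.cons_append, List.nil_append]
    rw [e T, e T']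
    refine perm_gap gap hB hp _ (fun c hc => ?_)
    rcases hT c hc with rfl | rfl
    · exact List.mem_append_right _ List.mem_cons_self
    · exact List.mem_append_right _ (List.mem_cons_of_mem _
        (List.mem_append_right _ List.mem_cons_self))
  have pR : ∀ T T' : List ℕ, T.Perm T' → (∀ c ∈ T, c = 1 ∨ c = 2) →
      RR θ (X i' ++ 2 :: (X j' ++ 1 :: (X l' ++ 3 :: T)))
        (X i' ++ 2 :: (X j' ++ 1 :: (X l' ++ 3 :: T'))) := by
    intro T T' hp hT
    have e : ∀ T : List ℕ, X i' ++ 2 :: (X j' ++ 1 :: (X l' ++ 3 :: T)) =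
        (X i' ++ 2 :: (X j' ++ 1 :: (X l' ++ [3]))) ++ T := by
      intro T
      simp only [List.append_assoc, List.cons_append, List.nil_append]
    rw [e T, e T']
    refine perm_gap gap hB hp _ (fun c hc => ?_)
    rcases hT c hc with rfl | rfl
    · exact List.mem_append_right _ (List.mem_cons_of_mem _
        (List.mem_append_right _ List.mem_cons_self))
    · exact List.mem_append_right _ List.mem_cons_self
  have r1 : 1 ≤ L.count 1 := List.count_pos_iff.2 h1
  have r2 : 1 ≤ L.count 2 := List.count_pos_iff.2 h2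
  have r1' : 1 ≤ L'.count 1 := List.count_pos_iff.2 h1'
  have r2' : 1 ≤ L'.count 2 := List.count_pos_iff.2 h2'
  obtain ⟨r, hr⟩ : ∃ r, r = L.count 1 := ⟨_, rfl⟩
  obtain ⟨s, hs⟩ : ∃ s, s = L.count 2 := ⟨_, rfl⟩
  obtain ⟨r', hr'⟩ : ∃ r, r = L'.count 1 := ⟨_, rfl⟩
  obtain ⟨s', hs'⟩ : ∃ s, s = L'.count 2 := ⟨_, rfl⟩
  have q1 := two_perm hL
  have q1' := two_perm hL'
  rw [← hr, ← hs] at q1
  rw [← hr', ← hs'] at q1'
  rw [← hr] at r1
  rw [← hs] at r2
  rw [← hr'] at r1'
  rw [← hs'] at r2'
  have a1 := θ.trans (θ.trans (pL _ _ q1 hL).symm hR) (pR _ _ q1' hL')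
  -- the letter `1`
  have nX : ∀ k c : ℕ, c ≠ 0 → c ∉ X k := by
    intro k c hc hm
    exact hc (List.eq_of_mem_replicate hm)
  have nR : ∀ k v c : ℕ, c ≠ v → c ∉ List.replicate k v := by
    intro k v c hc hm
    exact hc (List.eq_of_mem_replicate hm)
  have a2 := nta n θ hB (X i) (X j ++ 2 :: X l) (List.replicate s 2) (X i' ++ 2 :: X j') (X l')
    (List.replicate s' 2) 1 3 r r' r1 r1' (by omega) (by
      intro D hD
      simp only [List.mem_cons, List.not_mem_nil, or_false] at hD
      rcases hD with rfl | rfl | rfl | rfl | rfl | rfl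
      · exact ⟨nX _ _ (by omega), nX _ _ (by omega)⟩
      · constructor
        · rw [List.mem_append, List.mem_cons]
          exact fun h => h.elim (nX _ _ (by omega)) (fun h => h.elim (by omega) (nX _ _ (by omega)))
        · rw [List.mem_append, List.mem_cons]
          exact fun h => h.elim (nX _ _ (by omega)) (fun h => h.elim (by omega) (nX _ _ (by omega)))
      · exact ⟨nR _ _ _ (by omega), nR _ _ _ (by omega)⟩
      · constructor
        · rw [List.mem_append, List.mem_cons]
          exact fun h => h.elim (nX _ _ (by omega)) (fun h => h.elim (by omega) (nX _ _ (by omega)))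
        · rw [List.mem_append, List.mem_cons]
          exact fun h => h.elim (nX _ _ (by omega)) (fun h => h.elim (by omega) (nX _ _ (by omega)))
      · exact ⟨nX _ _ (by omega), nX _ _ (by omega)⟩
      · exact ⟨nR _ _ _ (by omega), nR _ _ _ (by omega)⟩) (by
      simp only [List.append_assoc, List.cons_append]
      exact a1)
  simp only [List.append_assoc, List.cons_append] at a2
  -- the letter `2`
  have hp12 : ∀ k : ℕ, (1 :: List.replicate k 2 : List ℕ).Perm (List.replicate k 2 ++ [1]) := by
    intro k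
    exact (List.perm_append_singleton 1 (List.replicate k 2)).symm
  have hl12 : ∀ k : ℕ, ∀ c ∈ (1 :: List.replicate k 2 : List ℕ), c = 1 ∨ c = 2 := by
    intro k c hc
    rcases List.mem_cons.1 hc with h | h
    · exact Or.inl h
    · exact Or.inr (List.eq_of_mem_replicate h)
  have a3 := θ.trans (θ.trans (pL _ _ (hp12 s) (hl12 s)).symm a2) (pR _ _ (hp12 s') (hl12 s'))
  have a4 := nta n θ hB (X i ++ 1 :: X j) (X l) [1] (X i') (X j' ++ 1 :: X l') [1] 2 3 s s' r2 r2'
    (by omega) (by
      intro D hD
      simp only [List.mem_cons, List.not_mem_nil, or_false] at hD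
      rcases hD with rfl | rfl | rfl | rfl | rfl | rfl
      · constructor
        · rw [List.mem_append, List.mem_cons]
          exact fun h => h.elim (nX _ _ (by omega)) (fun h => h.elim (by omega) (nX _ _ (by omega)))
        · rw [List.mem_append, List.mem_cons]
          exact fun h => h.elim (nX _ _ (by omega)) (fun h => h.elim (by omega) (nX _ _ (by omega)))
      · exact ⟨nX _ _ (by omega), nX _ _ (by omega)⟩
      · simp
      · exact ⟨nX _ _ (by omega), nX _ _ (by omega)⟩
      · constructor
        · rw [List.mem_append, List.mem_cons]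
          exact fun h => h.elim (nX _ _ (by omega)) (fun h => h.elim (by omega) (nX _ _ (by omega)))
        · rw [List.mem_append, List.mem_cons]
          exact fun h => h.elim (nX _ _ (by omega)) (fun h => h.elim (by omega) (nX _ _ (by omega)))
      · simp) (by
      simp only [List.append_assoc, List.cons_append]
      exact a3)
  simp only [List.append_assoc, List.cons_append] at a4
  have hl21 : ∀ c ∈ ([2, 1] : List ℕ), c = 1 ∨ c = 2 := by
    intro c hc
    simp only [List.mem_cons, List.not_mem_nil, or_false] at hc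
    exact hc.symm
  have a5 := θ.trans (θ.trans (pL [2, 1] [1, 2] (List.Perm.swap 1 2 []) hl21).symm a4)
    (pR [2, 1] [1, 2] (List.Perm.swap 1 2 []) hl21)
  exact ntc n θ hB [1, 2] i j l i' j' l' (by simp) (by simp) (by simp) (by simp) a5

end Pool.Agent.MWGR.H23
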