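import Pool.Agent.MWGR.StmtsN

/-!
MWGR, row SPT: a letter which occurs once.
-/

namespace Pool.Agent.MWGR.H23

/-- **SPT**. -/
theorem spt : SptStmt := by
  intro l a h
  have ha : a ∈ l := List.count_pos_iff.1 (by omega)
  obtain ⟨P, Q, hl, hP⟩ := List.eq_append_cons_of_mem ha
  refine ⟨P, Q, hl, hP, ?_, ?_⟩
  · rw [hl, List.count_append, List.count_cons_self] at h
    exact List.count_eq_zero.1 (by omega)
  · intro x
    have h1 : l.takeWhile (fun c => decide (c ≠ a)) = P := by
      rw [hl, List.takeWhile_append_of_pos]
      · simp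
      · intro c hc
        simp only [decide_eq_true_eq]
        rintro rfl
        exact hP hc
    unfold cb
    rw [h1]

end Pool.Agent.MWGR.H23
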